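import Mathlib

set_option autoImplicit false

namespace Pool.Agent.KS6_36.LC

open Finset

/-- Maps sending affine lines to affine lines (of the affine spaces over the field with three
elements), in the form: they preserve three-term progressions. -/
def AP {a b : ℕ} (g : (Fin a → Fin 3) → (Fin b → Fin 3)) : Prop :=
  ∀ x y z, x + z = y + y → g x + g z = g y + g y

def Cl (d : ℕ) : Prop := ∀ δ : ℝ, 0 < δ → ∃ M : ℕ, ∀ m, M ≤ m → ∀ S : Finset (Fin m → Fin 3),
  δ * 3 ^ m ≤ (S.card : ℝ) → ∃ g : (Fin d → Fin 3) → (Fin m → Fin 3), Function.Injective g ∧ AP g ∧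
    ∀ x, g x ∈ S

lemma cl_zero : Cl 0 := by
  intro δ hδ
  refine ⟨0, fun m _ S hS => ?_⟩
  have h : 0 < S.card := by
    have : (0 : ℝ) < S.card := lt_of_lt_of_le (by positivity) hS
    exact_mod_cast this
  obtain ⟨x, hx⟩ := card_pos.1 h
  exact ⟨fun _ => x, fun a b _ => Subsingleton.elim _ _, fun _ _ _ _ => rfl, fun _ => hx⟩

lemma line (δ : ℝ) (hδ : 0 < δ) : ∃ M : ℕ, ∀ m, M ≤ m → ∀ S : Finset (Fin m → Fin 3),
    δ * 3 ^ m ≤ (S.card : ℝ) → ∃ l : Fin 3 → (Fin m → Fin 3), Function.Injective l ∧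
      (∀ x y z, x + z = y + y → l x + l z = l y + l y) ∧ ∀ x, l x ∈ S := by
  refine ⟨cornersTheoremBound δ, fun m hm S hS => ?_⟩
  have hR := roth_3ap_theorem δ hδ (G := Fin m → Fin 3) (by
    simp only [Fintype.card_pi, Fintype.card_fin, Finset.prod_const, Finset.card_univ]
    exact hm.trans (Nat.lt_pow_self (by norm_num)).le) S (by
      simpa [Fintype.card_pi, Fintype.card_fin, Finset.prod_const] using hS)
  simp only [ThreeAPFree, not_forall] at hR
  obtain ⟨u, hu, v, hv, w, hw, h2, h3⟩ := hR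
  have hvw : v ≠ w := by
    intro h
    subst h
    exact h3 (add_right_cancel h2)
  have huw : u ≠ w := by
    intro h
    subst h
    apply h3
    funext i
    have : ∀ i j : Fin 3, i + i = j + j → i = j := by decide
    exact this _ _ (congrFun h2 i)
  refine ⟨![u, v, w], ?_, ?_, ?_⟩
  · intro a b h
    fin_cases a <;> fin_cases b <;> simp at h ⊢
    · exact h3 h
    · exact huw h
    · exact h3 h.symm
    · exact hvw h
    · exact huw h.symm
    · exact hvw h.symm
  · intro x y z h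
    funext i
    have key : ∀ a b c : Fin 3, a + c = b + b → ∀ x y z : Fin 3, x + z = y + y →
        ![a, b, c] x + ![a, b, c] z = ![a, b, c] y + ![a, b, c] y := by decide
    have := key (u i) (v i) (w i) (congrFun h2 i) x y z h
    have e : ∀ x : Fin 3, (![u, v, w] : Fin 3 → Fin m → Fin 3) x i = ![u i, v i, w i] x := by
      intro x; fin_cases x <;> rfl
    simp only [Pi.add_apply, e]
    exact this
  · intro x
    fin_cases x
    · exact hu
    · exact hv
    · exact hw

lemma step (d : ℕ) (h : Cl d) : Cl (d + 1) := by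
  classical
  intro δ hδ
  obtain ⟨m1, h1⟩ := h (δ / 2) (by positivity)
  set K : ℝ := ((Fintype.card ((Fin d → Fin 3) → (Fin m1 → Fin 3)) : ℕ) : ℝ) with hK
  have hK0 : 0 < K := by rw [hK]; exact_mod_cast Fintype.card_pos
  obtain ⟨M2, h2⟩ := line (δ / (2 * K)) (by positivity)
  refine ⟨m1 + M2, fun m hm S hS => ?_⟩
  obtain ⟨m2, rfl⟩ : ∃ m2, m = m1 + m2 := ⟨m - m1, by omega⟩
  have hm2 : M2 ≤ m2 := by omega
  set F : (Fin m2 → Fin 3) → Finset (Fin m1 → Fin 3) := fun y =>
    univ.filter fun x => Fin.append x y ∈ S with hF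
  set B : Finset (Fin m2 → Fin 3) := univ.filter fun y => δ / 2 * 3 ^ m1 ≤ ((F y).card : ℝ) with hB
  have c1 : (S.card : ℝ) ≤ ∑ y, ((F y).card : ℝ) := by
    have : S ⊆ univ.biUnion fun y => (F y).image fun x => Fin.append x y := by
      intro z hz
      refine mem_biUnion.2 ⟨fun j => z (Fin.natAdd m1 j), mem_univ _, mem_image.2
        ⟨fun i => z (Fin.castAdd m2 i), mem_filter.2 ⟨mem_univ _, ?_⟩, ?_⟩⟩
      · rw [Fin.append_castAdd_natAdd]; exact hz
      · exact Fin.append_castAdd_natAdd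
    exact_mod_cast (card_le_card this).trans (card_biUnion_le.trans
      (sum_le_sum fun y _ => card_image_le))
  have p1 : (0 : ℝ) < 3 ^ m1 := by positivity
  have p2 : (0 : ℝ) < 3 ^ m2 := by positivity
  have c2 : ∑ y, ((F y).card : ℝ) ≤ (B.card : ℝ) * 3 ^ m1 + 3 ^ m2 * (δ / 2 * 3 ^ m1) := by
    rw [← sum_filter_add_sum_filter_not univ (fun y => δ / 2 * 3 ^ m1 ≤ ((F y).card : ℝ))]
    refine add_le_add ?_ ?_
    · rw [← nsmul_eq_mul]
      refine sum_le_card_nsmul _ _ _ fun y _ => ?_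
      have : (F y).card ≤ 3 ^ m1 := by
        refine (card_le_univ _).trans ?_
        simp
      exact_mod_cast this
    · refine (sum_le_card_nsmul _ _ (δ / 2 * 3 ^ m1) fun y hy => ?_).trans ?_
      · exact (not_le.1 (mem_filter.1 hy).2).le
      · rw [nsmul_eq_mul]
        refine mul_le_mul_of_nonneg_right ?_ (by positivity)
        have : (univ.filter fun y => ¬ δ / 2 * 3 ^ m1 ≤ ((F y).card : ℝ)).card ≤ 3 ^ m2 := by
          refine (card_le_univ _).trans ?_
          simp
        exact_mod_cast this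
  have c3 : δ / 2 * 3 ^ m2 ≤ (B.card : ℝ) := by
    rw [pow_add] at hS
    have : (δ / 2 * 3 ^ m2) * 3 ^ m1 ≤ (B.card : ℝ) * 3 ^ m1 := by nlinarith
    exact le_of_mul_le_mul_right this p1
  have hg : ∀ y ∈ B, ∃ g : (Fin d → Fin 3) → (Fin m1 → Fin 3), Function.Injective g ∧ AP g ∧
      ∀ x, g x ∈ F y := fun y hy => h1 m1 le_rfl _ (mem_filter.1 hy).2
  choose! G hG1 hG2 hG3 using hg
  obtain ⟨g, hgc⟩ : ∃ g, δ / (2 * K) * 3 ^ m2 ≤ ((B.filter fun y => G y = g).card : ℝ) := by
    by_contra hcon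
    push Not at hcon
    have e1 : (B.card : ℝ) = ∑ g, ((B.filter fun y => G y = g).card : ℝ) := by
      exact_mod_cast card_eq_sum_card_fiberwise (fun y _ => mem_univ (G y))
    have e2 : ∑ g, ((B.filter fun y => G y = g).card : ℝ) <
        ∑ _g : (Fin d → Fin 3) → (Fin m1 → Fin 3), δ / (2 * K) * 3 ^ m2 :=
      sum_lt_sum_of_nonempty univ_nonempty fun g _ => hcon g
    rw [sum_const, nsmul_eq_mul, card_univ, ← hK, ← e1] at e2
    have e3 : K * (δ / (2 * K) * 3 ^ m2) = δ / 2 * 3 ^ m2 := by field_simp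
    linarith
  obtain ⟨l, l1, l2, l3⟩ := h2 m2 hm2 _ hgc
  obtain ⟨y0, hy0⟩ : ∃ y0, y0 ∈ B ∧ G y0 = g := ⟨l 0, (mem_filter.1 (l3 0)).1, (mem_filter.1 (l3 0)).2⟩
  have g1 : Function.Injective g := hy0.2 ▸ hG1 y0 hy0.1
  have g2 : AP g := hy0.2 ▸ hG2 y0 hy0.1
  have inj : ∀ (a a' : Fin m1 → Fin 3) (b b' : Fin m2 → Fin 3), Fin.append a b = Fin.append a' b' →
      a = a' ∧ b = b' := by
    intro a a' b b' h
    constructor
    · funext i
      have := congrFun h (Fin.castAdd m2 i)
      simpa using this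
    · funext j
      have := congrFun h (Fin.natAdd m1 j)
      simpa using this
  have app : ∀ (a a' : Fin m1 → Fin 3) (b b' : Fin m2 → Fin 3),
      Fin.append a b + Fin.append a' b' = Fin.append (a + a') (b + b') := by
    intro a a' b b'
    funext i
    refine Fin.addCases (fun i => ?_) (fun i => ?_) i <;> simp
  refine ⟨fun x => Fin.append (g (Fin.tail x)) (l (x 0)), fun x x' hx => ?_, fun x y z hxyz => ?_,
    fun x => ?_⟩
  · obtain ⟨e1, e2⟩ := inj _ _ _ _ hx
    rw [← Fin.cons_self_tail x, ← Fin.cons_self_tail x', g1 e1, l1 e2]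
  · simp only [app]
    rw [g2 (Fin.tail x) (Fin.tail y) (Fin.tail z) (by
      funext i; exact congrFun hxyz i.succ), l2 (x 0) (y 0) (z 0) (congrFun hxyz 0)]
  · have a1 := mem_filter.1 (l3 (x 0))
    have a2 := hG3 _ a1.1 (Fin.tail x)
    rw [a1.2] at a2
    exact (mem_filter.1 a2).2

theorem cl (d : ℕ) : Cl d := by
  induction d with
  | zero => exact cl_zero
  | succ d ih => exact step d ih

end Pool.Agent.KS6_36.LC
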