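import Pool.Graph.R_pool_sql_team_ae5b0c61.H59.EL6
import Pool.Agent.KS6_36.LC.A

set_option autoImplicit false

namespace Pool.Agent.KS6_36.LC

open Finset Pool.Agent.H59.EL in
lemma cnt_le {Q : ℕ} (hQ : Q ≠ 0) {u v : ℕ} (h : u ≤ v) :
    (((Ioc u v).filter (fun n => Q.Coprime n)).card : ℝ) ≤ (Q.totient : ℝ) / Q * (v - u) + Q := by
  have h1 := Nat.Ico_filter_coprime_le (u + 1) (v - u) hQ
  have h2 : Ico (u + 1) (u + 1 + (v - u)) = Ioc u v := by
    ext x; simp only [Finset.mem_Ico, Finset.mem_Ioc]; omega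
  rw [h2] at h1
  have h3 : (((Ioc u v).filter (fun n => Q.Coprime n)).card : ℝ) ≤
      Q.totient * (((v - u) / Q : ℕ) + 1) := by exact_mod_cast h1
  have h4 : (((v - u) / Q : ℕ) : ℝ) ≤ ((v : ℝ) - u) / Q := by
    rw [← Nat.cast_sub h]; exact Nat.cast_div_le
  have h5 : (Q.totient : ℝ) ≤ Q := by exact_mod_cast Nat.totient_le Q
  have h6 : (Q.totient : ℝ) * ((v - u) / Q : ℕ) ≤ Q.totient * (((v : ℝ) - u) / Q) := by gcongr
  have h7 : (Q.totient : ℝ) * (((v : ℝ) - u) / Q) = (Q.totient : ℝ) / Q * (v - u) := by ring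
  linarith

open Finset Pool.Agent.H59.EL in
lemma cover {Q y N : ℕ} (hQ : Big y Q) (hy : 0 < y) (hyN : y ≤ N) (A : Finset ℕ)
    (hA : A ⊆ Icc 1 N) : (A.card : ℝ) - N / y ≤ ∑ s ∈ Q.divisors,
      (((Ioc 0 (N / s)).filter (fun n => Q.Coprime n ∧ s * n ∈ A)).card : ℝ) := by
  classical
  set b1 := Q.divisors.biUnion fun s =>
    ((Ioc 0 (N / s)).filter (fun n => Q.Coprime n ∧ s * n ∈ A)).image (s * ·) with hb1
  set b2 := (Ioc y N).biUnion (fun b => (Ioc 0 N).filter (b ^ 2 ∣ ·)) with hb2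
  have hsub : A ⊆ b1 ∪ b2 := by
    intro n hn
    obtain ⟨h1, h2⟩ := Finset.mem_Icc.1 (hA hn)
    by_cases hc : n ∈ b2
    · exact Finset.mem_union_right _ hc
    refine Finset.mem_union_left _ (Finset.mem_biUnion.2 ⟨Nat.gcd n Q,
      Nat.mem_divisors.2 ⟨Nat.gcd_dvd_right _ _, hQ.1.ne_zero⟩, ?_⟩)
    have h3 := Nat.mul_div_cancel' (Nat.gcd_dvd_left n Q)
    have h4 : 0 < Nat.gcd n Q := Nat.gcd_pos_of_pos_left _ h1
    refine Finset.mem_image.2 ⟨n / Nat.gcd n Q, Finset.mem_filter.2 ⟨Finset.mem_Ioc.2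
      ⟨Nat.div_pos (Nat.gcd_le_left _ h1) h4, Nat.div_le_div_right h2⟩, ?_, by rwa [h3]⟩, h3⟩
    refine Nat.coprime_of_dvd fun p hp h5 h6 => hc ?_
    have h7 : p ∣ n := by rw [← h3]; exact h6.mul_left _
    have h8 : p ^ 2 ∣ n := by
      rw [← h3, sq]; exact Nat.mul_dvd_mul (Nat.dvd_gcd h7 h5) h6
    exact Finset.mem_biUnion.2 ⟨p, Finset.mem_Ioc.2 ⟨hQ.2 p hp h5, (Nat.le_of_dvd h1 h7).trans h2⟩,
      Finset.mem_filter.2 ⟨Finset.mem_Ioc.2 ⟨h1, h2⟩, h8⟩⟩
  have hc : (A.card : ℝ) ≤ b1.card + b2.card := by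
    exact_mod_cast (Finset.card_le_card hsub).trans (Finset.card_union_le _ _)
  have hc1 : (b1.card : ℝ) ≤ ∑ s ∈ Q.divisors,
      (((Ioc 0 (N / s)).filter (fun n => Q.Coprime n ∧ s * n ∈ A)).card : ℝ) := by
    exact_mod_cast Finset.card_biUnion_le.trans (Finset.sum_le_sum fun s _ => Finset.card_image_le)
  have hc2 : (b2.card : ℝ) ≤ N / y := by
    have h := Finset.card_biUnion_le (s := Ioc y N) (t := fun b => (Ioc 0 N).filter (b ^ 2 ∣ ·))
    have h' : (b2.card : ℝ) ≤ ∑ b ∈ Ioc y N, (((Ioc 0 N).filter (b ^ 2 ∣ ·)).card : ℝ) := by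
      exact_mod_cast h
    have h2 : ∑ b ∈ Ioc y N, (((Ioc 0 N).filter (b ^ 2 ∣ ·)).card : ℝ) ≤
        N * ∑ b ∈ Ioc y N, ((b : ℝ) ^ 2)⁻¹ := by
      rw [Finset.mul_sum]
      refine Finset.sum_le_sum fun r _ => ?_
      rw [Nat.Ioc_filter_dvd_card_eq_div, ← div_eq_mul_inv]
      exact_mod_cast (Nat.cast_div_le (α := ℝ) (m := N) (n := r ^ 2))
    have h3 := sum_Ioc_inv_sq_le_sub (α := ℝ) hy.ne' hyN
    have h4 : (0 : ℝ) ≤ (N : ℝ)⁻¹ := by positivity
    calc (b2.card : ℝ) ≤ N * ∑ b ∈ Ioc y N, ((b : ℝ) ^ 2)⁻¹ := h'.trans h2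
      _ ≤ N * (y : ℝ)⁻¹ := by gcongr; linarith
      _ = N / y := by rw [div_eq_mul_inv]
  linarith

/-- Main theorem: in a dense set of integers there are arbitrarily large injective images of the
affine space of dimension `d` over the field with three elements such that on each line the three
pairwise least common multiples agree. -/
theorem main (ε κ : ℝ) (hε : 0 < ε) (hκ : 0 < κ) (d : ℕ) : ∃ N₀ : ℕ, ∀ N : ℕ, N₀ ≤ N →
      ∀ A : Finset ℕ, A ⊆ Finset.Icc 1 N → ε * (N : ℝ) ≤ (A.card : ℝ) →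
        ∃ f : (Fin d → Fin 3) → ℕ, Function.Injective f ∧ (∀ x, f x ∈ A) ∧
          (∀ u v w, u + w = v + v →
            Nat.lcm (f u) (f v) = Nat.lcm (f v) (f w) ∧ Nat.lcm (f u) (f v) = Nat.lcm (f u) (f w)) ∧
          ∀ u v, (f u : ℝ) ≤ (1 + κ) * f v := by
  open Finset Pool.Agent.H59.EL in
  classical
  obtain ⟨e, he0, he1, he2, he3⟩ : ∃ e : ℝ, 0 < e ∧ 8 * e ≤ ε ∧ 8 * e ≤ 1 ∧ e ≤ κ := by
    refine ⟨min (min ε 1 / 8) κ, lt_min (by have := lt_min hε one_pos; positivity) hκ, ?_, ?_,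
      min_le_right _ _⟩
    · have h1 := min_le_left (min ε 1 / 8) κ
      have := min_le_left ε 1; linarith
    · have h1 := min_le_left (min ε 1 / 8) κ
      have := min_le_right ε 1; linarith
  obtain ⟨m, hm⟩ := cl d e he0
  set η := e / (4 * (m + 1)) with hη
  have hη0 : 0 < η := by positivity
  have hm0 : (0 : ℝ) ≤ m := by positivity
  have hη2 : η * (4 * (m + 1)) = e := by rw [hη]; field_simp
  have hη3 : m * η ≤ e / 4 := by nlinarith
  obtain ⟨y0, hy⟩ := exists_nat_ge (1 / e)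
  obtain ⟨Q, Λ, hB, hP, h1, hL⟩ := cube hη0 (by nlinarith) hη0 (y0 + 1) m
  have hQ := hB.1.ne_zero
  have hQ1 : (1 : ℝ) ≤ Q := by exact_mod_cast Nat.pos_of_ne_zero hQ
  have hs1 := one_le_sg hQ
  obtain ⟨N0, hN0⟩ := exists_nat_ge (sg Q * Q ^ 2 + Q ^ 2 * (1 + Q) / e)
  refine ⟨N0 + (y0 + 1), fun N hN A hA hc => ?_⟩
  have hNN : (N0 : ℝ) ≤ N := by exact_mod_cast (show N0 ≤ N by omega)
  have hNp : (0 : ℝ) < N := by exact_mod_cast (show 0 < N by omega)
  have hx1 : 0 ≤ sg Q * Q ^ 2 := by positivity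
  have hx2 : 0 ≤ (Q : ℝ) ^ 2 * (1 + Q) / e := by positivity
  set ρ : ℝ := (Q.totient : ℝ) / Q with hρ
  have hφ : (1 : ℝ) ≤ Q.totient := by exact_mod_cast Nat.totient_pos.2 (Nat.pos_of_ne_zero hQ)
  have hρ0 : 0 < ρ := by positivity
  have hρ1 : ρ ≤ 1 := by
    rw [hρ, div_le_one (by linarith)]; exact_mod_cast Nat.totient_le Q
  set D := ρ * N + Q ^ 2 with hD
  have hD0 : 0 < D := by positivity
  set a : ℕ → ℝ := fun s =>
    (((Ioc 0 (N / s)).filter (fun n => Q.Coprime n ∧ s * n ∈ A)).card : ℝ) with ha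
  have hcnt : ∀ s, s ∣ Q → (((Ioc 0 (N / s)).filter (fun n => Q.Coprime n)).card : ℝ) ≤ D / s := by
    intro s hs
    have b1 : (0 : ℝ) < s := by exact_mod_cast Nat.pos_of_dvd_of_pos hs (Nat.pos_of_ne_zero hQ)
    have b2 : (s : ℝ) ≤ Q := by exact_mod_cast Nat.le_of_dvd (Nat.pos_of_ne_zero hQ) hs
    refine (cnt_le hQ (Nat.zero_le _)).trans ?_
    have b3 : ((N / s : ℕ) : ℝ) ≤ N / s := Nat.cast_div_le
    rw [le_div_iff₀ b1] at b3 ⊢
    rw [← hρ, hD]
    push_cast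
    nlinarith
  have hf : ∀ s, s ∣ Q → 0 ≤ a s * s / D ∧ a s * s / D ≤ 1 := by
    intro s hs
    have b1 : (0 : ℝ) < s := by exact_mod_cast Nat.pos_of_dvd_of_pos hs (Nat.pos_of_ne_zero hQ)
    refine ⟨by positivity, ?_⟩
    rw [div_le_one hD0, ← le_div_iff₀ b1]
    refine le_trans ?_ (hcnt s hs)
    exact Nat.cast_le.2 (Finset.card_le_card fun n hn => by
      simp only [Finset.mem_filter] at hn ⊢; exact ⟨hn.1, hn.2.1⟩)
  have hE : 3.5 * e ≤ Ed Q fun s => a s * s / D := by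
    have b1 := cover hB (by omega) (show y0 + 1 ≤ N by omega) A hA
    have b2 : (N : ℝ) / ((y0 + 1 : ℕ) : ℝ) ≤ e * N := by
      rw [div_le_iff₀ (by positivity)]
      rw [div_le_iff₀ he0] at hy
      push_cast; nlinarith
    have b3 : ∑ s ∈ Q.divisors, 1 / (s : ℝ) * (a s * s / D) = (∑ s ∈ Q.divisors, a s) / D := by
      rw [Finset.sum_div]
      refine Finset.sum_congr rfl fun s hs => ?_
      have : (s : ℝ) ≠ 0 := by have := Nat.pos_of_mem_divisors hs; positivity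
      field_simp
    have b4 : sg Q * ρ ≤ 1 := by
      rw [hρ, ← mul_div_assoc, div_le_one (by linarith)]; exact sg_totient hB.1
    have b5 : sg Q * D ≤ 2 * N := by rw [hD]; nlinarith
    rw [Ed_apply, b3, ← div_eq_inv_mul, div_div, le_div_iff₀ (by positivity)]
    change _ ≤ ∑ s ∈ Q.divisors, a s at b1
    nlinarith
  set T : ℝ := ((Fintype.card (Fin m → Fin 3) : ℕ) : ℝ) with hT
  have hT0 : 0 < T := by rw [hT]; exact_mod_cast Fintype.card_pos
  obtain ⟨s, hs, hsum⟩ : ∃ s, CO Q m (m * η) s ∧ 3 * e * T < ∑ w, a (s w) * s w / D := by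
    by_contra hcon
    push Not at hcon
    have b1 := hP.mono (G := fun _ => 3 * e * T) hcon
    rw [fn_const _ h1, fn_sum] at b1
    have b2 : ∑ _w : Fin m → Fin 3, 3.25 * e ≤ ∑ w, Λ fun s => a (s w) * s w / D :=
      Finset.sum_le_sum fun w _ => le_trans (by linarith) (hL w (fun s => a s * s / D) hf)
    rw [Finset.sum_const, nsmul_eq_mul, Finset.card_univ, ← hT] at b2
    nlinarith
  obtain ⟨s1, s2, s3, s4⟩ := hs
  obtain ⟨w0, _, hw0⟩ := Finset.exists_max_image Finset.univ s Finset.univ_nonempty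
  have sp : ∀ w, 0 < s w := fun w => Nat.pos_of_dvd_of_pos (s1 w) (Nat.pos_of_ne_zero hQ)
  set S := s w0 with hS
  have hS0 : (0 : ℝ) < S := by exact_mod_cast sp w0
  have hSQ : (S : ℝ) ≤ Q := by exact_mod_cast Nat.le_of_dvd (Nat.pos_of_ne_zero hQ) (s1 w0)
  have hbig : 1 + Q ≤ e * (D / S) := by
    have b1 : (Q : ℝ) ^ 2 * (1 + Q) ≤ N * e := by rw [← div_le_iff₀ he0]; linarith
    have b2 : (N : ℝ) / Q ^ 2 ≤ D / S := by
      have b3 : (N : ℝ) / Q ≤ D := by
        have : 1 / (Q : ℝ) * N ≤ ρ * N := by rw [hρ]; gcongr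
        rw [hD, div_eq_inv_mul, ← one_div]; nlinarith
      rw [sq, ← div_div]
      exact div_le_div₀ hD0.le b3 hS0 hSQ
    have b4 : 1 + (Q : ℝ) ≤ e * (N / Q ^ 2) := by
      rw [← mul_div_assoc, le_div_iff₀ (by positivity)]; linarith
    exact b4.trans (by gcongr)
  set C := (Ioc 0 (N / S)).filter (fun n => Q.Coprime n) with hC
  have hw : ∀ w, a (s w) * s w / D * (D / S) - 1.5 * e * (D / S) ≤
      ((C.filter fun n => s w * n ∈ A).card : ℝ) := by
    intro w
    have b0 : (0 : ℝ) < s w := by exact_mod_cast sp w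
    have b1 : s w ≤ S := hw0 w (Finset.mem_univ _)
    have b1' : (s w : ℝ) ≤ S := by exact_mod_cast b1
    have b2 : N / S ≤ N / s w := Nat.div_le_div_left b1 (sp w)
    have b3 : a (s w) ≤ ((C.filter fun n => s w * n ∈ A).card : ℝ) +
        ((Ioc (N / S) (N / s w)).filter (fun n => Q.Coprime n)).card := by
      simp only [ha]
      norm_cast
      refine (Finset.card_le_card fun n hn => ?_).trans (Finset.card_union_le _ _)
      simp only [hC, Finset.mem_union, Finset.mem_filter, Finset.mem_Ioc] at hn ⊢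
      by_cases h : n ≤ N / S
      · exact Or.inl ⟨⟨⟨hn.1.1, h⟩, hn.2.1⟩, hn.2.2⟩
      · exact Or.inr ⟨⟨by omega, hn.1.2⟩, hn.2.1⟩
    have b4 := cnt_le hQ b2
    have b5 : (S : ℝ) ≤ s w * (1 + e / 2) := by
      have c1 := s3 w0 w
      rw [Real.log_le_iff_le_exp hS0, Real.exp_add, Real.exp_log b0] at c1
      have c0 : 0 ≤ m * η := by positivity
      have c2 := Real.abs_exp_sub_one_le (x := m * η) (by rw [abs_of_nonneg c0]; linarith)
      rw [abs_of_nonneg c0] at c2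
      have c3 := (abs_le.1 c2).2
      exact c1.trans (by gcongr; linarith)
    have b6 : ((N / s w : ℕ) : ℝ) ≤ N / S * (1 + e / 2) := by
      refine Nat.cast_div_le.trans ?_
      rw [div_mul_eq_mul_div, div_le_div_iff₀ b0 hS0]; nlinarith
    have b7 : (N : ℝ) / S - 1 ≤ (N / S : ℕ) := by
      have := Nat.lt_floor_add_one ((N : ℝ) / S)
      rw [Nat.floor_div_eq_div] at this
      linarith
    have b8 : ρ * (N / S) ≤ D / S := by
      rw [← mul_div_assoc]; gcongr; rw [hD]; nlinarith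
    have b9 : ρ * (((N / s w : ℕ) : ℝ) - (N / S : ℕ)) ≤ ρ * (N / S * (e / 2) + 1) := by
      gcongr; linarith
    have b10 : a (s w) * s w / D * (D / S) ≤ a (s w) := by
      rw [show a (s w) * s w / D * (D / S) = a (s w) * (s w / S) by field_simp]
      exact mul_le_of_le_one_right (by positivity) ((div_le_one hS0).2 b1')
    rw [← hρ] at b4
    nlinarith
  obtain ⟨n, hn, hcard⟩ : ∃ n ∈ C, e * T ≤ ((Finset.univ.filter fun w => s w * n ∈ A).card : ℝ) := by
    by_contra hcon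
    push Not at hcon
    have b1 : ∑ w, ((C.filter fun n => s w * n ∈ A).card : ℝ) =
        ∑ n ∈ C, ((Finset.univ.filter fun w => s w * n ∈ A).card : ℝ) := by
      simp only [Finset.card_filter]
      push_cast
      exact Finset.sum_comm
    have b2 := Finset.sum_le_card_nsmul C _ _ fun n hn => (hcon n hn).le
    have b3 := Finset.sum_le_sum fun w (_ : w ∈ Finset.univ) => hw w
    rw [Finset.sum_sub_distrib, ← Finset.sum_mul, Finset.sum_const, nsmul_eq_mul, Finset.card_univ,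
      ← hT, b1] at b3
    rw [nsmul_eq_mul] at b2
    have b4 := hcnt S (s1 w0)
    have b5 : 0 < D / S := by positivity
    have b6 : (C.card : ℝ) * (e * T) ≤ D / S * (e * T) := by gcongr
    have b7 : 0 < e * T * (D / S) := by positivity
    nlinarith
  obtain ⟨g, g1, g2, g3⟩ := hm m le_rfl (Finset.univ.filter fun w => s w * n ∈ A) (by
    rw [hT] at hcard
    simpa [Fintype.card_pi, Fintype.card_fin, Finset.prod_const] using hcard)
  have hn0 : 0 < n := (Finset.mem_Ioc.1 (Finset.mem_filter.1 hn).1).1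
  have inj : ∀ x z, s x * n = s z * n → x = z := fun x z h => s2 (Nat.eq_of_mul_eq_mul_right hn0 h)
  refine ⟨fun x => s (g x) * n, fun x z h => g1 (inj _ _ h), fun x => by simpa using g3 x,
    fun u v w h => ?_, fun u v => ?_⟩
  · obtain ⟨l1, l2⟩ := s4 (g u) (g v) (g w) (g2 u v w h)
    exact ⟨by simp only [Nat.lcm_mul_right, l1], by simp only [Nat.lcm_mul_right, l2]⟩
  · have b0 : (0 : ℝ) < s (g v) := by exact_mod_cast sp (g v)
    have bu : (0 : ℝ) < s (g u) := by exact_mod_cast sp (g u)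
    have c1 := s3 (g u) (g v)
    rw [Real.log_le_iff_le_exp bu, Real.exp_add, Real.exp_log b0] at c1
    have c0 : 0 ≤ m * η := by positivity
    have c2 := Real.abs_exp_sub_one_le (x := m * η) (by rw [abs_of_nonneg c0]; linarith)
    rw [abs_of_nonneg c0] at c2
    have c3 := (abs_le.1 c2).2
    push_cast
    have c4 : (s (g u) : ℝ) ≤ (1 + κ) * s (g v) := by
      refine c1.trans ?_
      rw [mul_comm]
      gcongr
      linarith
    have c5 : (0 : ℝ) ≤ n := Nat.cast_nonneg n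
    nlinarith

end Pool.Agent.KS6_36.LC
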